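import Pool.Agent.W973.IP.Defs

set_option autoImplicit false

namespace Pool.Agent.W61.IP

open Pool.Agent.W973.IP MvPolynomial

theorem split {n r : ℕ} (hr : r ≤ n + 1) (s : Fin (MM n)) (φ : Tx n → ℝ) :
    ∑ t, φ t = ∑ o : Option (Fin n), ∑ p : Fin r × Fin 2,
        φ (o, s, ⟨dg p, by unfold dg; omega⟩) +
      ∑ t : Tx n, if uns (s : ℕ) r t then φ t else 0 := by
  have h1 : ∑ t, φ t = ∑ t : Tx n, (if uns (s : ℕ) r t then 0 else φ t) +
      ∑ t : Tx n, (if uns (s : ℕ) r t then φ t else 0) := by
    rw [← Finset.sum_add_distrib]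
    refine Finset.sum_congr rfl fun t _ => ?_
    split_ifs <;> simp
  rw [h1]
  congr 1
  symm
  rw [← Fintype.sum_prod_type' (f := fun (o : Option (Fin n)) (p : Fin r × Fin 2) =>
    φ (o, s, ⟨dg p, by unfold dg; omega⟩))]
  refine Finset.sum_of_injOn (fun x : Option (Fin n) × (Fin r × Fin 2) =>
    ((x.1, s, ⟨dg x.2, by unfold dg; omega⟩) : Tx n)) ?_ ?_ ?_ ?_
  · rintro ⟨o, i, k⟩ _ ⟨o', i', k'⟩ _ h
    simp only [Prod.mk.injEq, Fin.mk.injEq, dg, true_and] at h
    obtain ⟨ho, hd⟩ := h
    have h2 : (k : ℕ) = (k' : ℕ) := by omega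
    have h3 : (i : ℕ) = (i' : ℕ) := by omega
    rw [ho, Fin.ext h2, Fin.ext h3]
  · intro x _
    simp
  · rintro ⟨o, s', d⟩ _ h
    split_ifs with hu
    · rfl
    · exfalso
      apply h
      simp only [uns, not_not] at hu
      refine ⟨(o, (⟨(d : ℕ) / 2, by omega⟩, ⟨(d : ℕ) % 2, by omega⟩)), by simp, ?_⟩
      refine Prod.ext rfl (Prod.ext (Fin.ext hu.1.symm) (Fin.ext ?_))
      simp only [dg]
      omega
  · rintro ⟨o, i, k⟩ _
    have hd : dg (i, k) < 2 * r := by simp only [dg]; omega
    have : ¬ uns (s : ℕ) r ((o, s, ⟨dg (i, k), by omega⟩) : Tx n) := fun h => h ⟨rfl, hd⟩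
    exact (if_neg this).symm

theorem sysT : S_SYS := by
  intro n r hr P s a c e v u w lam h
  funext J
  rw [Matrix.mulVec, dotProduct, Fintype.sum_sum_type]
  rcases J with l | ⟨o, i, k⟩
  · have h1 := h.gu l
    simp only [GU] at h1
    have h2 : ∑ i, lam i * (hv (pderiv (Sum.inl l) P) u (w i) * X (w i) ^ NN n -
        6 * c * u l ^ 5 + e * a (Sum.inl l)) =
        ∑ i, lam i * (hv (pderiv (Sum.inl l) P) u (w i) * X (w i) ^ NN n) -
        (6 * c * u l ^ 5) * ∑ i, lam i + (e * a (Sum.inl l)) * ∑ i, lam i := by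
      rw [Finset.mul_sum, Finset.mul_sum, ← Finset.sum_sub_distrib, ← Finset.sum_add_distrib]
      refine Finset.sum_congr rfl fun i _ => ?_
      ring
    rw [h2, h.sum] at h1
    simp only [mat, xsol, rhs, zero_mul, Finset.sum_const_zero, ite_mul, Finset.sum_ite_eq,
      Finset.mem_univ, if_true, add_zero]
    linarith
  · rcases o with _ | j
    · by_cases hk : k = 0
      · subst hk
        have h1 := h.val i
        simp only [G, qa] at h1
        rw [split hr s] at h1
        simp only [mat, xsol, rhs, if_true]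
        rw [Fintype.sum_prod_type]
        have e1 : ∑ l, e * u l * a (Sum.inl l) = e * ∑ l, a (Sum.inl l) * u l := by
          rw [Finset.mul_sum]
          exact Finset.sum_congr rfl fun l _ => by ring
        have e2 : ∑ o : Option (Fin n), ∑ p : Fin r × Fin 2,
            e * (Lf (s : ℕ) (w i) ^ dg p * ow (w i) o) *
              a (Sum.inr (o, s, ⟨dg p, by unfold dg; omega⟩)) =
            e * ∑ o : Option (Fin n), ∑ p : Fin r × Fin 2,
              a (Sum.inr (o, s, ⟨dg p, by unfold dg; omega⟩)) *
                (Lf (s : ℕ) (w i) ^ dg p * ow (w i) o) := by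
          rw [Finset.mul_sum]
          refine Finset.sum_congr rfl fun o _ => ?_
          rw [Finset.mul_sum]
          exact Finset.sum_congr rfl fun p _ => by ring
        rw [e1]
        refine (congrArg (fun x => e * ∑ l, a (Sum.inl l) * u l + x) e2).trans ?_
        linear_combination h1
      · simp only [mat, xsol, rhs, if_neg hk, zero_mul, Finset.sum_const_zero, zero_add]
        rw [Fintype.sum_prod_type]
        simp
    · by_cases hk : k = 0
      · subst hk
        have h1 := h.gw i j
        simp only [GW] at h1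
        rw [split hr s] at h1
        simp only [mat, xsol, rhs, if_true]
        rw [Fintype.sum_prod_type]
        have e2 : ∑ o : Option (Fin n), ∑ p : Fin r × Fin 2,
            e * ((dg p : ℝ) * Lf (s : ℕ) (w i) ^ (dg p - 1) * (((s : ℕ) : ℝ) ^ (j : ℕ)) *
              ow (w i) o + Lf (s : ℕ) (w i) ^ dg p * (if o = some j then 1 else 0)) *
              a (Sum.inr (o, s, ⟨dg p, by unfold dg; omega⟩)) =
            e * ∑ o : Option (Fin n), ∑ p : Fin r × Fin 2,
              a (Sum.inr (o, s, ⟨dg p, by unfold dg; omega⟩)) *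
                ((dg p : ℝ) * Lf (s : ℕ) (w i) ^ (dg p - 1) * (((s : ℕ) : ℝ) ^ (j : ℕ)) *
              ow (w i) o + Lf (s : ℕ) (w i) ^ dg p * (if o = some j then 1 else 0)) := by
          rw [Finset.mul_sum]
          refine Finset.sum_congr rfl fun o _ => ?_
          rw [Finset.mul_sum]
          exact Finset.sum_congr rfl fun p _ => by ring
        simp only [reduceCtorEq, if_false, zero_mul, Finset.sum_const_zero, zero_add]
        refine e2.trans ?_
        linear_combination h1
      · simp only [mat, xsol, rhs, if_neg hk, zero_mul, Finset.sum_const_zero, zero_add]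
        rw [Fintype.sum_prod_type]
        simp

end Pool.Agent.W61.IP
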